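import Pool.Agent.helper88.RQ2.Spec

open Set Matroid RadonMin

namespace RadonQ2

/-- Agreement of two triples of truth values in two coordinates. -/
def C7S_agree (x y : Bool × Bool × Bool) : Bool :=
  (x.1 == y.1 && x.2.1 == y.2.1) || (x.1 == y.1 && x.2.2 == y.2.2) ||
    (x.2.1 == y.2.1 && x.2.2 == y.2.2)

/-- `m` with all but one coordinate negated. -/
def C7S_nb (m : Bool × Bool × Bool) (i : Fin 3) : Bool × Bool × Bool :=
  if i = 0 then (m.1, !m.2.1, !m.2.2) else if i = 1 then (!m.1, m.2.1, !m.2.2) else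
    (!m.1, !m.2.1, m.2.2)

lemma C7S_bool : ∀ x y z : Bool × Bool × Bool, C7S_agree x y = false → C7S_agree x z = false →
    C7S_agree y z = false → ∃ m : Bool × Bool × Bool, ∀ i : Fin 3,
      x = C7S_nb m i ∨ y = C7S_nb m i ∨ z = C7S_nb m i := by
  decide +kernel

lemma C7S_agree_false (x0 x1 x2 y0 y1 y2 : Bool)
    (h : ¬ ((x0 = y0 ∧ x1 = y1) ∨ (x0 = y0 ∧ x2 = y2) ∨ (x1 = y1 ∧ x2 = y2))) :
    C7S_agree (x0, x1, x2) (y0, y1, y2) = false := by
  by_contra h'
  rw [Bool.not_eq_false] at h'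
  apply h
  simp only [C7S_agree, Bool.or_eq_true, Bool.and_eq_true, beq_iff_eq] at h'
  tauto

lemma C7S_rot {V : Type*} [DecidableEq V] (x y z : V) : ({x, y, z} : Finset V) = {y, z, x} := by
  ext w
  simp only [Finset.mem_insert, Finset.mem_singleton]
  tauto

lemma C7S_point {V : Type*} [DecidableEq V] (X : Finset V) (hX : X.card = 7)
    (T : Finset (Finset V)) (hsub : ∀ C ∈ T, C ⊆ X) (h3 : ∀ C ∈ T, C.card = 3)
    (h6 : 6 ≤ T.card) : ∃ g ∈ X, 3 ≤ (T.filter (fun C => g ∈ C)).card := by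
  by_contra hcon
  push Not at hcon
  have h1 := Finset.sum_card_bipartiteAbove_eq_sum_card_bipartiteBelow
    (s := T) (t := X) (fun (C : Finset V) (x : V) => x ∈ C)
  have h2 : ∑ C ∈ T, (X.bipartiteAbove (fun (C : Finset V) (x : V) => x ∈ C) C).card
      = ∑ C ∈ T, 3 := by
    apply Finset.sum_congr rfl
    intro C hC
    rw [← h3 C hC]
    congr 1
    ext x
    simp only [Finset.mem_bipartiteAbove]
    exact ⟨fun h => h.2, fun h => ⟨hsub C hC h, h⟩⟩
  have h4 : ∑ b ∈ X, (T.bipartiteBelow (fun (C : Finset V) (x : V) => x ∈ C) b).card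
      ≤ ∑ b ∈ X, 2 := by
    apply Finset.sum_le_sum
    intro b hb
    have := hcon b hb
    have h5 : (T.bipartiteBelow (fun (C : Finset V) (x : V) => x ∈ C) b).card
        = (T.filter (fun C => b ∈ C)).card := rfl
    omega
  rw [h2] at h1
  rw [← h1] at h4
  simp only [Finset.sum_const, smul_eq_mul, hX] at h4
  omega

lemma C7S_le {V : Type*} [DecidableEq V] (X : Finset V) (hX : X.card = 7)
    (T : Finset (Finset V)) (hsub : ∀ C ∈ T, C ⊆ X) (h3 : ∀ C ∈ T, C.card = 3)
    (hu : ∀ C ∈ T, ∀ C' ∈ T, ∀ x y, x ≠ y → x ∈ C → y ∈ C → x ∈ C' → y ∈ C' → C = C')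
    (g : V) (hg : g ∈ X) : (T.filter (fun C => g ∈ C)).card ≤ 3 := by
  have h1 : ((T.filter (fun C => g ∈ C)).biUnion (fun C => C.erase g)).card
      = ∑ C ∈ T.filter (fun C => g ∈ C), (C.erase g).card := by
    apply Finset.card_biUnion
    intro C hC C' hC' hne
    rw [Finset.mem_coe, Finset.mem_filter] at hC hC'
    change Disjoint (C.erase g) (C'.erase g)
    rw [Finset.disjoint_left]
    intro x hx hx'
    rw [Finset.mem_erase] at hx hx'
    exact hne (hu C hC.1 C' hC'.1 x g hx.1 hx.2 hC.2 hx'.2 hC'.2)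
  have h2 : ∑ C ∈ T.filter (fun C => g ∈ C), (C.erase g).card
      = ∑ C ∈ T.filter (fun C => g ∈ C), 2 := by
    apply Finset.sum_congr rfl
    intro C hC
    rw [Finset.mem_filter] at hC
    rw [Finset.card_erase_of_mem hC.2, h3 C hC.1]
  have h4 : ((T.filter (fun C => g ∈ C)).biUnion (fun C => C.erase g)) ⊆ X.erase g := by
    intro x hx
    rw [Finset.mem_biUnion] at hx
    obtain ⟨C, hC, hx⟩ := hx
    rw [Finset.mem_filter] at hC
    rw [Finset.mem_erase] at hx ⊢
    exact ⟨hx.1, hsub C hC.1 hx.2⟩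
  have h5 := Finset.card_le_card h4
  rw [h1, h2, Finset.card_erase_of_mem hg, hX] at h5
  simp only [Finset.sum_const, smul_eq_mul] at h5
  omega

lemma C7S_core {V : Type*} [DecidableEq V] (X : Finset V) (hX : X.card = 7)
    (T : Finset (Finset V)) (hsub : ∀ C ∈ T, C ⊆ X) (h3 : ∀ C ∈ T, C.card = 3)
    (hu : ∀ C ∈ T, ∀ C' ∈ T, ∀ x y, x ≠ y → x ∈ C → y ∈ C → x ∈ C' → y ∈ C' → C = C')
    (h6 : 6 ≤ T.card) : ∃ a b c d e f g : V, X = {a, b, c, d, e, f, g} ∧
      ({b, c, d} : Finset V) ∈ T ∧ ({c, a, e} : Finset V) ∈ T ∧ ({a, b, f} : Finset V) ∈ T ∧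
      ({a, d, g} : Finset V) ∈ T ∧ ({b, e, g} : Finset V) ∈ T ∧ ({c, f, g} : Finset V) ∈ T := by
  obtain ⟨g, hgX, hg3⟩ := C7S_point X hX T hsub h3 h6
  have hg3' := C7S_le X hX T hsub h3 hu g hgX
  have hsum := Finset.card_filter_add_card_filter_not (s := T) (fun C => g ∈ C)
  have hn3 : 3 ≤ (T.filter (fun C => ¬ g ∈ C)).card := by omega
  obtain ⟨C1, hC1, C2, hC2, C3, hC3, h12, h13, h23⟩ := Finset.two_lt_card.mp hg3
  obtain ⟨D1, hD1, D2, hD2, D3, hD3, k12, k13, k23⟩ := Finset.two_lt_card.mp hn3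
  rw [Finset.mem_filter] at hC1 hC2 hC3 hD1 hD2 hD3
  have hpair : ∀ C ∈ T, g ∈ C → ∃ a d, a ≠ d ∧ a ≠ g ∧ d ≠ g ∧ C = {a, d, g} := by
    intro C hC hgC
    have h1 : (C.erase g).card = 2 := by rw [Finset.card_erase_of_mem hgC, h3 C hC]
    obtain ⟨a, d, had, hE⟩ := Finset.card_eq_two.mp h1
    have ha : a ∈ C.erase g := by rw [hE]; simp
    have hd : d ∈ C.erase g := by rw [hE]; simp
    rw [Finset.mem_erase] at ha hd
    refine ⟨a, d, had, ha.1, hd.1, ?_⟩
    rw [← Finset.insert_erase hgC, hE]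
    exact C7S_rot g a d
  obtain ⟨a, d, had, hag, hdg, hCa⟩ := hpair C1 hC1.1 hC1.2
  obtain ⟨b, e, hbe, hbg, heg, hCb⟩ := hpair C2 hC2.1 hC2.2
  obtain ⟨c, f, hcf, hcg, hfg, hCc⟩ := hpair C3 hC3.1 hC3.2
  -- the six other points are distinct
  have hdist : ∀ C ∈ T, ∀ C' ∈ T, C ≠ C' → g ∈ C → g ∈ C' → ∀ x ∈ C, ∀ y ∈ C', x ≠ g → x ≠ y := by
    intro C hC C' hC' hne hgC hgC' x hx y hy hxg hxy
    subst hxy
    exact hne (hu C hC C' hC' x g hxg hx hgC hy hgC')
  have haC : a ∈ C1 := by rw [hCa]; simp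
  have hdC : d ∈ C1 := by rw [hCa]; simp
  have hbC : b ∈ C2 := by rw [hCb]; simp
  have heC : e ∈ C2 := by rw [hCb]; simp
  have hcC : c ∈ C3 := by rw [hCc]; simp
  have hfC : f ∈ C3 := by rw [hCc]; simp
  have hab := hdist C1 hC1.1 C2 hC2.1 h12 hC1.2 hC2.2 a haC b hbC hag
  have hae := hdist C1 hC1.1 C2 hC2.1 h12 hC1.2 hC2.2 a haC e heC hag
  have hdb := hdist C1 hC1.1 C2 hC2.1 h12 hC1.2 hC2.2 d hdC b hbC hdg
  have hde := hdist C1 hC1.1 C2 hC2.1 h12 hC1.2 hC2.2 d hdC e heC hdg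
  have hac := hdist C1 hC1.1 C3 hC3.1 h13 hC1.2 hC3.2 a haC c hcC hag
  have haf := hdist C1 hC1.1 C3 hC3.1 h13 hC1.2 hC3.2 a haC f hfC hag
  have hdc := hdist C1 hC1.1 C3 hC3.1 h13 hC1.2 hC3.2 d hdC c hcC hdg
  have hdf := hdist C1 hC1.1 C3 hC3.1 h13 hC1.2 hC3.2 d hdC f hfC hdg
  have hbc := hdist C2 hC2.1 C3 hC3.1 h23 hC2.2 hC3.2 b hbC c hcC hbg
  have hbf := hdist C2 hC2.1 C3 hC3.1 h23 hC2.2 hC3.2 b hbC f hfC hbg
  have hec := hdist C2 hC2.1 C3 hC3.1 h23 hC2.2 hC3.2 e heC c hcC heg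
  have hef := hdist C2 hC2.1 C3 hC3.1 h23 hC2.2 hC3.2 e heC f hfC heg
  have hXe : X = {a, b, c, d, e, f, g} := by
    symm
    apply Finset.eq_of_subset_of_card_le
    · intro x hx
      simp only [Finset.mem_insert, Finset.mem_singleton] at hx
      rcases hx with rfl | rfl | rfl | rfl | rfl | rfl | rfl
      · exact hsub C1 hC1.1 haC
      · exact hsub C2 hC2.1 hbC
      · exact hsub C3 hC3.1 hcC
      · exact hsub C1 hC1.1 hdC
      · exact hsub C2 hC2.1 heC
      · exact hsub C3 hC3.1 hfC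
      · exact hgX
    · rw [hX]
      rw [Finset.card_insert_of_notMem, Finset.card_insert_of_notMem,
        Finset.card_insert_of_notMem, Finset.card_insert_of_notMem,
        Finset.card_insert_of_notMem, Finset.card_insert_of_notMem, Finset.card_singleton]
      · rw [Finset.mem_singleton]; exact hfg
      · simp only [Finset.mem_insert, Finset.mem_singleton]
        push Not
        exact ⟨hef, heg⟩
      · simp only [Finset.mem_insert, Finset.mem_singleton]
        push Not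
        exact ⟨hde, hdf, hdg⟩
      · simp only [Finset.mem_insert, Finset.mem_singleton]
        push Not
        exact ⟨hdc.symm, hec.symm, hcf, hcg⟩
      · simp only [Finset.mem_insert, Finset.mem_singleton]
        push Not
        exact ⟨hbc, hdb.symm, hbe, hbf, hbg⟩
      · simp only [Finset.mem_insert, Finset.mem_singleton]
        push Not
        exact ⟨hab, hac, had, hae, haf, hag⟩
  have n01 : ∀ i j : Bool, cond i d a ≠ cond j e b := by
    intro i j
    cases i <;> cases j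
    exacts [hab, hae, hdb, hde]
  have n02 : ∀ i j : Bool, cond i d a ≠ cond j f c := by
    intro i j
    cases i <;> cases j
    exacts [hac, haf, hdc, hdf]
  have n12 : ∀ i j : Bool, cond i e b ≠ cond j f c := by
    intro i j
    cases i <;> cases j
    exacts [hbc, hbf, hec, hef]
  -- transversals
  have htr : ∀ D ∈ T, g ∉ D → ∃ x0 x1 x2 : Bool,
      D = {cond x0 d a, cond x1 e b, cond x2 f c} := by
    intro D hD hgD
    have hD1 : ¬ (a ∈ D ∧ d ∈ D) := by
      rintro ⟨h, h'⟩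
      have := hu D hD C1 hC1.1 a d had h h' haC hdC
      exact hgD (this ▸ hC1.2)
    have hD2 : ¬ (b ∈ D ∧ e ∈ D) := by
      rintro ⟨h, h'⟩
      have := hu D hD C2 hC2.1 b e hbe h h' hbC heC
      exact hgD (this ▸ hC2.2)
    have hD3 : ¬ (c ∈ D ∧ f ∈ D) := by
      rintro ⟨h, h'⟩
      have := hu D hD C3 hC3.1 c f hcf h h' hcC hfC
      exact hgD (this ▸ hC3.2)
    have hDX : ∀ x ∈ D, x = a ∨ x = d ∨ x = b ∨ x = e ∨ x = c ∨ x = f := by
      intro x hx
      have h1 := hsub D hD hx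
      rw [hXe] at h1
      simp only [Finset.mem_insert, Finset.mem_singleton] at h1
      have h2 : x ≠ g := fun h => hgD (h ▸ hx)
      rcases h1 with h | h | h | h | h | h | h
      · exact Or.inl h
      · exact Or.inr (Or.inr (Or.inl h))
      · exact Or.inr (Or.inr (Or.inr (Or.inr (Or.inl h))))
      · exact Or.inr (Or.inl h)
      · exact Or.inr (Or.inr (Or.inr (Or.inl h)))
      · exact Or.inr (Or.inr (Or.inr (Or.inr (Or.inr h))))
      · exact absurd h h2
    have hcov : D ⊆ (D ∩ {a, d}) ∪ (D ∩ {b, e}) ∪ (D ∩ {c, f}) := by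
      intro x hx
      simp only [Finset.mem_union, Finset.mem_inter, Finset.mem_insert, Finset.mem_singleton]
      rcases hDX x hx with h | h | h | h | h | h
      · exact Or.inl (Or.inl ⟨hx, Or.inl h⟩)
      · exact Or.inl (Or.inl ⟨hx, Or.inr h⟩)
      · exact Or.inl (Or.inr ⟨hx, Or.inl h⟩)
      · exact Or.inl (Or.inr ⟨hx, Or.inr h⟩)
      · exact Or.inr ⟨hx, Or.inl h⟩
      · exact Or.inr ⟨hx, Or.inr h⟩
    have hle1 : (D ∩ {a, d}).card ≤ 1 := by
      rw [Finset.card_le_one]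
      intro x hx y hy
      simp only [Finset.mem_inter, Finset.mem_insert, Finset.mem_singleton] at hx hy
      rcases hx with ⟨hx, rfl | rfl⟩ <;> rcases hy with ⟨hy, rfl | rfl⟩
      · rfl
      · exact absurd ⟨hx, hy⟩ hD1
      · exact absurd ⟨hy, hx⟩ hD1
      · rfl
    have hle2 : (D ∩ {b, e}).card ≤ 1 := by
      rw [Finset.card_le_one]
      intro x hx y hy
      simp only [Finset.mem_inter, Finset.mem_insert, Finset.mem_singleton] at hx hy
      rcases hx with ⟨hx, rfl | rfl⟩ <;> rcases hy with ⟨hy, rfl | rfl⟩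
      · rfl
      · exact absurd ⟨hx, hy⟩ hD2
      · exact absurd ⟨hy, hx⟩ hD2
      · rfl
    have hle3 : (D ∩ {c, f}).card ≤ 1 := by
      rw [Finset.card_le_one]
      intro x hx y hy
      simp only [Finset.mem_inter, Finset.mem_insert, Finset.mem_singleton] at hx hy
      rcases hx with ⟨hx, rfl | rfl⟩ <;> rcases hy with ⟨hy, rfl | rfl⟩
      · rfl
      · exact absurd ⟨hx, hy⟩ hD3
      · exact absurd ⟨hy, hx⟩ hD3
      · rfl
    have hc := Finset.card_le_card hcov
    have hc1 := Finset.card_union_le (D ∩ {a, d} ∪ D ∩ {b, e}) (D ∩ {c, f})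
    have hc2 := Finset.card_union_le (D ∩ {a, d}) (D ∩ {b, e})
    rw [h3 D hD] at hc
    have e1 : 0 < (D ∩ {a, d}).card := by omega
    have e2 : 0 < (D ∩ {b, e}).card := by omega
    have e3 : 0 < (D ∩ {c, f}).card := by omega
    have f1 : ∃ x0 : Bool, cond x0 d a ∈ D := by
      obtain ⟨x, hx⟩ := Finset.card_pos.mp e1
      simp only [Finset.mem_inter, Finset.mem_insert, Finset.mem_singleton] at hx
      rcases hx with ⟨hx, rfl | rfl⟩
      · exact ⟨false, hx⟩
      · exact ⟨true, hx⟩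
    have f2 : ∃ x1 : Bool, cond x1 e b ∈ D := by
      obtain ⟨x, hx⟩ := Finset.card_pos.mp e2
      simp only [Finset.mem_inter, Finset.mem_insert, Finset.mem_singleton] at hx
      rcases hx with ⟨hx, rfl | rfl⟩
      · exact ⟨false, hx⟩
      · exact ⟨true, hx⟩
    have f3 : ∃ x2 : Bool, cond x2 f c ∈ D := by
      obtain ⟨x, hx⟩ := Finset.card_pos.mp e3
      simp only [Finset.mem_inter, Finset.mem_insert, Finset.mem_singleton] at hx
      rcases hx with ⟨hx, rfl | rfl⟩
      · exact ⟨false, hx⟩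
      · exact ⟨true, hx⟩
    obtain ⟨x0, hx0⟩ := f1
    obtain ⟨x1, hx1⟩ := f2
    obtain ⟨x2, hx2⟩ := f3
    refine ⟨x0, x1, x2, ?_⟩
    symm
    apply Finset.eq_of_subset_of_card_le
    · intro x hx
      simp only [Finset.mem_insert, Finset.mem_singleton] at hx
      rcases hx with rfl | rfl | rfl
      · exact hx0
      · exact hx1
      · exact hx2
    · rw [h3 D hD, Finset.card_insert_of_notMem, Finset.card_insert_of_notMem,
        Finset.card_singleton]
      · rw [Finset.mem_singleton]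
        exact n12 x1 x2
      · simp only [Finset.mem_insert, Finset.mem_singleton]
        push Not
        exact ⟨n01 x0 x1, n02 x0 x2⟩
  obtain ⟨x0, x1, x2, hx⟩ := htr D1 hD1.1 hD1.2
  obtain ⟨y0, y1, y2, hy⟩ := htr D2 hD2.1 hD2.2
  obtain ⟨z0, z1, z2, hz⟩ := htr D3 hD3.1 hD3.2
  have key : ∀ D ∈ T, ∀ D' ∈ T, D ≠ D' → ∀ x0 x1 x2 y0 y1 y2 : Bool,
      D = {cond x0 d a, cond x1 e b, cond x2 f c} →
      D' = {cond y0 d a, cond y1 e b, cond y2 f c} →
      C7S_agree (x0, x1, x2) (y0, y1, y2) = false := by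
    intro D hD D' hD' hne x0 x1 x2 y0 y1 y2 hDe hDe'
    apply C7S_agree_false
    rintro (h | h | h)
    · obtain ⟨rfl, rfl⟩ := h
      exact hne (hu D hD D' hD' _ _ (n01 x0 x1) (by rw [hDe]; simp) (by rw [hDe]; simp)
        (by rw [hDe']; simp) (by rw [hDe']; simp))
    · obtain ⟨rfl, rfl⟩ := h
      exact hne (hu D hD D' hD' _ _ (n02 x0 x2) (by rw [hDe]; simp) (by rw [hDe]; simp)
        (by rw [hDe']; simp) (by rw [hDe']; simp))
    · obtain ⟨rfl, rfl⟩ := h
      exact hne (hu D hD D' hD' _ _ (n12 x1 x2) (by rw [hDe]; simp) (by rw [hDe]; simp)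
        (by rw [hDe']; simp) (by rw [hDe']; simp))
  have p1 := key D1 hD1.1 D2 hD2.1 k12 _ _ _ _ _ _ hx hy
  have p2 := key D1 hD1.1 D3 hD3.1 k13 _ _ _ _ _ _ hx hz
  have p3 := key D2 hD2.1 D3 hD3.1 k23 _ _ _ _ _ _ hy hz
  obtain ⟨⟨m0, m1, m2⟩, hm⟩ := C7S_bool (x0, x1, x2) (y0, y1, y2) (z0, z1, z2) p1 p2 p3
  have hmem : ∀ i j k : Bool, ((x0, x1, x2) = (i, j, k) ∨ (y0, y1, y2) = (i, j, k) ∨
      (z0, z1, z2) = (i, j, k)) →
      ({cond i d a, cond j e b, cond k f c} : Finset V) ∈ T := by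
    intro i j k h
    simp only [Prod.mk.injEq] at h
    rcases h with ⟨rfl, rfl, rfl⟩ | ⟨rfl, rfl, rfl⟩ | ⟨rfl, rfl, rfl⟩
    · rw [← hx]; exact hD1.1
    · rw [← hy]; exact hD2.1
    · rw [← hz]; exact hD3.1
  have r1 := hmem m0 (!m1) (!m2) (hm 0)
  have r2 := hmem (!m0) m1 (!m2) (hm 1)
  have r3 := hmem (!m0) (!m1) m2 (hm 2)
  have s1 : ({cond (!m0) d a, cond m0 d a, g} : Finset V) ∈ T := by
    have : ({cond (!m0) d a, cond m0 d a, g} : Finset V) = C1 := by
      rw [hCa]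
      cases m0
      · exact Finset.insert_comm _ _ _
      · rfl
    rw [this]; exact hC1.1
  have s2 : ({cond (!m1) e b, cond m1 e b, g} : Finset V) ∈ T := by
    have : ({cond (!m1) e b, cond m1 e b, g} : Finset V) = C2 := by
      rw [hCb]
      cases m1
      · exact Finset.insert_comm _ _ _
      · rfl
    rw [this]; exact hC2.1
  have s3 : ({cond (!m2) f c, cond m2 f c, g} : Finset V) ∈ T := by
    have : ({cond (!m2) f c, cond m2 f c, g} : Finset V) = C3 := by
      rw [hCc]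
      cases m2
      · exact Finset.insert_comm _ _ _
      · rfl
    rw [this]; exact hC3.1
  refine ⟨cond (!m0) d a, cond (!m1) e b, cond (!m2) f c, cond m0 d a, cond m1 e b, cond m2 f c, g,
    ?_, ?_, ?_, ?_, s1, s2, s3⟩
  · rw [hXe]
    apply Finset.Subset.antisymm
    · intro x hx
      simp only [Finset.mem_insert, Finset.mem_singleton] at hx
      rcases hx with rfl | rfl | rfl | rfl | rfl | rfl | rfl
      · cases m0 <;> simp
      · cases m1 <;> simp
      · cases m2 <;> simp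
      · cases m0 <;> simp
      · cases m1 <;> simp
      · cases m2 <;> simp
      · simp
    · intro x hx
      simp only [Finset.mem_insert, Finset.mem_singleton] at hx
      rcases hx with rfl | rfl | rfl | rfl | rfl | rfl | rfl
      · cases m0 <;> simp
      · cases m1 <;> simp
      · cases m2 <;> simp
      · cases m0 <;> simp
      · cases m1 <;> simp
      · cases m2 <;> simp
      · simp
  · rw [← C7S_rot]; exact r1
  · rw [C7S_rot]; exact r2
  · exact r3

theorem C7S_proof (hGTR : GTR_stmt) (hGCO : GCO_stmt) : C7S_stmt := by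
  intro V _ _ _ X hra hX hci hline
  classical
  obtain ⟨E', L, D⟩ := exists_lineData (affMat X) (affMat_simp X) hra
  have hE : E' = X := by
    have h1 := D.coe_E
    rw [affMat_E] at h1
    exact Finset.coe_injective h1
  subst hE
  have hLra : ra L ≤ 2 := by
    have h1 := rk_restrict (affMat E') (le_refl (L : Set V))
    rw [affMat_restrict E' D.sub] at h1
    have h2 := D.rk_L
    unfold ra
    rw [h1]
    exact h2
  have hL : L.card ≤ 3 := hline L D.sub ((hGCO V L).mp hLra)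
  have h1 := D.cc_ge_short
  rw [hX] at h1
  have c1 : Nat.choose 7 4 = 35 := by decide
  rw [c1] at h1
  set T := (E'.powersetCard 3).filter (fun C : Finset V => (affMat E').IsCircuit (C : Set V))
    with hT
  have hci' : cc (affMat E') ≤ 17 := hci
  have h6 : 6 ≤ T.card := by omega
  have hmem : ∀ C ∈ T, C ⊆ E' ∧ C.card = 3 ∧ (affMat E').IsCircuit (C : Set V) := by
    intro C hC
    rw [hT, Finset.mem_filter, Finset.mem_powersetCard] at hC
    exact ⟨hC.1.1, hC.1.2, hC.2⟩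
  have hu : ∀ C ∈ T, ∀ C' ∈ T, ∀ x y, x ≠ y → x ∈ C → y ∈ C → x ∈ C' → y ∈ C' → C = C' := by
    intro C hC C' hC' x y hxy hx hy hx' hy'
    obtain ⟨a1, a2, a3⟩ := hmem C hC
    obtain ⟨b1, b2, b3⟩ := hmem C' hC'
    refine D.triangles_unique hL a1 b1 a2 b2 a3 b3 (P := {x, y}) (Finset.card_pair hxy) ?_ ?_
    · intro z hz
      simp only [Finset.mem_insert, Finset.mem_singleton] at hz
      rcases hz with rfl | rfl
      · exact hx
      · exact hy
    · intro z hz
      simp only [Finset.mem_insert, Finset.mem_singleton] at hz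
      rcases hz with rfl | rfl
      · exact hx'
      · exact hy'
  obtain ⟨a, b, c, d, e, f, g, hXe, t1, t2, t3, t4, t5, t6⟩ :=
    C7S_core E' hX T (fun C hC => (hmem C hC).1) (fun C hC => (hmem C hC).2.1) hu h6
  have hcol : ∀ x y z : V, ({x, y, z} : Finset V) ∈ T → Col x y z := by
    intro x y z h
    obtain ⟨a1, a2, a3⟩ := hmem _ h
    have hx : x ∈ E' := a1 (by simp)
    have hy : y ∈ E' := a1 (by simp)
    have hz : z ∈ E' := a1 (by simp)
    have ht : Tri (affMat E') x y z := by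
      unfold Tri
      simpa using a3
    obtain ⟨n1, n2, n3⟩ := ht.ne (affMat_simp E')
    exact (hGTR V E' x y z hx hy hz n1 n2 n3).mp ht
  refine ⟨a, b, c, d, e, f, g, hX, ?_, hcol _ _ _ t1, hcol _ _ _ t2, hcol _ _ _ t3,
    hcol _ _ _ t4, hcol _ _ _ t5, hcol _ _ _ t6, ?_⟩
  · rw [hXe]; simp
  · intro hc
    have := (hGCO V E').mpr hc
    omega

end RadonQ2
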